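import Pool.Agent.H71.TSG.H4.FC.TopL

/-!
# Project FC: parabolic subgroups and the sign character

`par_induction`: `Subgroup.closure_induction` or, as the generators are involutions, the set of all
products `s_{v1} … s_{vk}` (`vj ∈ σ`) is a subgroup. `parF`: the finite set of the elements of `par M σ`.
`eps_sq`: `eps` takes the values `±1` (induction with `simple_induction`), `eps M u⁻¹ = eps M u`.
`anti_ext`: `par_induction` (with `x` quantified).
`parF_inv`, `parF_simple_mul`: `par M σ` is a subgroup.
`alt_anti`: substitute `u = s_v u'`: `x s_v π u = x π (s_v u)`, `eps (s_v u) = -eps u`.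
-/

set_option autoImplicit false

open Finset

namespace Pool.Agent.H4.FC

variable {V : Type}

open Classical in
/-- the elements of a finite parabolic subgroup -/
noncomputable def parF (M : CoxeterMatrix V) (σ : Finset V) : Finset M.Group :=
  if h : (par M σ : Set M.Group).Finite then h.toFinset else ∅

end Pool.Agent.H4.FC
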